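import Pool.Agent.W617.LG.StmIV
set_option autoImplicit false
open Topology Filter Set MeasureTheory
open scoped ContDiff InnerProductSpace

namespace Pool.Agent.W764.LG
open Pool.Agent.W617.LG

section scale
variable {q : ℕ} {C : TF q} {τ : E q → ℝ}

theorem fderiv_scale (h : LW q C τ) {x : E q} (hx : x ≠ 0) {r : ℝ} (hr : 0 < r) (w : E q) :
    fderiv ℝ C (r⁻¹ • x) w = r ^ 2 • fderiv ℝ C x w := by
  have hr' : 0 < r⁻¹ := inv_pos.2 hr
  have hx' : r⁻¹ • x ≠ 0 := smul_ne_zero hr'.ne' hx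
  have h1 : HasFDerivAt C (fderiv ℝ C (r⁻¹ • x)) (r⁻¹ • x) :=
    ((h.smooth _ hx').differentiableAt (by simp)).hasFDerivAt
  have h2 : HasFDerivAt (fun y : E q => r⁻¹ • y) (r⁻¹ • ContinuousLinearMap.id ℝ (E q)) x :=
    (hasFDerivAt_id x).const_smul r⁻¹
  have h3 := HasFDerivAt.comp (g := C) (f := fun y : E q => r⁻¹ • y) x h1 h2
  have h4 : HasFDerivAt (fun y : E q => r • C y) (r • fderiv ℝ C x) x :=
    (((h.smooth _ hx).differentiableAt (by simp)).hasFDerivAt).const_smul r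
  have h5 : (C ∘ fun y : E q => r⁻¹ • y) =ᶠ[𝓝 x] fun y => r • C y := by
    filter_upwards [isOpen_ne.mem_nhds hx] with y hy
    simp only [Function.comp_apply]
    rw [h.hom y hy r⁻¹ hr', inv_inv]
  have h6 := (h4.congr_of_eventuallyEq h5).unique h3
  have h7 := congrArg (fun L => L w) h6
  simp only [smul_apply, ContinuousLinearMap.comp_apply,
    ContinuousLinearMap.id_apply, map_smul] at h7
  have h8 := congrArg (fun L => r • L) h7
  simp only [smul_smul, mul_inv_cancel₀ hr.ne', one_smul] at h8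
  rw [← h8, sq]

theorem lam_scale (h : LW q C τ) {x : E q} (hx : x ≠ 0) {r : ℝ} (hr : 0 < r) (v : E q) :
    lam C (r⁻¹ • x) v = r * lam C x v := by
  unfold lam
  rw [h.hom x hx r⁻¹ (inv_pos.2 hr), inv_inv]
  simp [inner_smul_left]

theorem bb_scale (h : LW q C τ) {x : E q} (hx : x ≠ 0) {r : ℝ} (hr : 0 < r)
    (e : Fin (q + 1) → E q) (l : Fin q) :
    bb C (r⁻¹ • x) e l = bb C x e l := by
  unfold bb dlam
  rw [lam_scale h hx hr, fderiv_scale h hx hr]
  simp only [smul_apply, inner_smul_left, conj_trivial]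
  rw [mul_pow, mul_div_mul_left _ _ (by positivity)]

theorem v2_scale (h : LW q C τ) {x : E q} (hx : x ≠ 0) {r : ℝ} (hr : 0 < r)
    (e : Fin (q + 1) → E q) :
    v2 C (r⁻¹ • x) e = r • v2 C x e := by
  unfold v2
  simp only [lam_scale h hx hr, bb_scale h hx hr]
  funext i
  refine Fin.cases ?_ (fun l => ?_) i
  · simp only [Fin.cons_zero, Pi.smul_apply]
    rw [smul_add, smul_smul, smul_smul, smul_smul, norm_smul, Real.norm_of_nonneg (inv_pos.2 hr).le]
    congr 2
    have : ‖x‖ ≠ 0 := norm_ne_zero_iff.2 hx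
    field_simp
  · simp only [Fin.cons_succ, Pi.smul_apply, smul_smul]
    congr 1
    ring

theorem GF_scale (h : LW q C τ) {x : E q} {r : ℝ} (hr : 0 < r)
    {e : Fin (q + 1) → E q} (hG : GF C x e) : GF C (r⁻¹ • x) e where
  x0 := smul_ne_zero (inv_pos.2 hr).ne' hG.x0
  on := hG.on
  rad i := by rw [inner_smul_left, hG.rad i]; simp
  diag i j hij := by
    rw [h.hom x hG.x0 r⁻¹ (inv_pos.2 hr), inv_inv]
    simp [hG.diag i j hij]
  pos l := by
    rw [lam_scale h hG.x0 hr]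
    exact mul_pos hr (hG.pos l)

end scale

/-- inverse of a strictly increasing function with positive derivative -/
theorem inverse_fun (θ P : ℝ → ℝ) (hd : ∀ s, HasDerivAt θ (P s) s) (hP : ∀ s, 0 < P s) :
    ∃ σ : ℝ → ℝ, (∀ s, σ (θ s) = s) ∧ ∀ s, HasDerivAt σ (P s)⁻¹ (θ s) := by
  have hmono : StrictMono θ := strictMono_of_deriv_pos (fun s => by rw [(hd s).deriv]; exact hP s)
  have hcont : Continuous θ := continuous_iff_continuousAt.2 fun s => (hd s).continuousAt
  refine ⟨Function.invFun θ, fun s => Function.leftInverse_invFun hmono.injective s, fun s => ?_⟩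
  set σ := Function.invFun θ with hσ
  have hl : ∀ s, σ (θ s) = s := fun s => Function.leftInverse_invFun hmono.injective s
  have himg : ∀ u ∈ Ioo (θ (s - 1)) (θ (s + 1)), ∃ w ∈ Ioo (s - 1) (s + 1), θ w = u := by
    intro u hu
    obtain ⟨w, hw, hwu⟩ := intermediate_value_Ioo (by linarith : s - 1 ≤ s + 1)
      hcont.continuousOn hu
    exact ⟨w, hw, hwu⟩
  have hnb : Ioo (θ (s - 1)) (θ (s + 1)) ∈ 𝓝 (θ s) :=
    Ioo_mem_nhds (hmono (by linarith)) (hmono (by linarith))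
  have hcs : ContinuousAt σ (θ s) := by
    have hm : StrictMonoOn σ (Ioo (θ (s - 1)) (θ (s + 1))) := by
      intro u hu v hv huv
      obtain ⟨a, ha, rfl⟩ := himg u hu
      obtain ⟨b, hb, rfl⟩ := himg v hv
      rw [hl, hl]
      exact hmono.lt_iff_lt.1 huv
    refine hm.continuousAt_of_image_mem_nhds hnb ?_
    rw [hl]
    refine mem_of_superset (Ioo_mem_nhds (by linarith : s - 1 < s) (by linarith : s < s + 1)) ?_
    intro w hw
    exact ⟨θ w, ⟨hmono hw.1, hmono hw.2⟩, hl w⟩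
  have hev : ∀ᶠ y in 𝓝 (θ s), θ (σ y) = y := by
    filter_upwards [hnb] with y hy
    obtain ⟨w, _, rfl⟩ := himg y hy
    rw [hl]
  have := HasDerivAt.of_local_left_inverse (f := θ) (f' := P s) (g := σ) (a := θ s) hcs
    (by rw [hl]; exact hd s) (hP s).ne' hev
  exact this

theorem PP_pos {q : ℕ} {C : TF q} {z : FB q} (h : GF C z.1 z.2) : 0 < PP C z.1 z.2 :=
  Finset.prod_pos fun l _ => h.pos l

theorem curve : S_FL → S_UDU → S_CURVE := by
  intro hFL hUDU q C τ hL hex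
  obtain ⟨φ, hφ⟩ := hFL q C τ hL
  obtain ⟨z0, hz0, s₁, s₂, hs1, hs12, h01, h21, h23⟩ := hUDU q C τ φ hL hφ hex
  set γ : ℝ → FB q := fun s => φ s z0 with hγ
  have hmem : ∀ s, γ s ∈ GA C := fun s => hφ.mem z0 hz0 s
  have hder : ∀ s, HasDerivAt γ (XF C (γ s)) s := fun s => hφ.der z0 hz0 s
  have hnorm : ∀ s, ‖(γ s).1‖ = ‖z0.1‖ := fun s => hφ.norm z0 hz0 s
  set r : ℝ := ‖z0.1‖ with hr
  have hr0 : 0 < r := by
    have : 1 ≤ r := hz0.2.1
    linarith
  set P : ℝ → ℝ := fun s => PP C (γ s).1 (γ s).2 with hP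
  have hPpos : ∀ s, 0 < P s := fun s => PP_pos (hmem s).1
  have hγc : Continuous γ := continuous_iff_continuousAt.2 fun s => (hder s).continuousAt
  have hCc : Continuous fun s => C (γ s).1 := by
    rw [continuous_iff_continuousAt]
    intro s
    have h1 : ContinuousAt C (γ s).1 := (hL.smooth _ (hmem s).1.x0).continuousAt
    exact ContinuousAt.comp (f := fun s => (γ s).1) h1 hγc.fst.continuousAt
  have hPc : Continuous P := by
    simp only [hP, PP, lam]
    refine continuous_finsetProd _ fun l _ => ?_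
    have h2 : Continuous fun s => (γ s).2 l.succ := (continuous_apply _).comp hγc.snd
    exact ((hCc.clm_apply h2).clm_apply h2).inner h2
  set θ : ℝ → ℝ := fun s => ∫ t in (0:ℝ)..s, r⁻¹ * P t with hθ
  have hθd : ∀ s, HasDerivAt θ (r⁻¹ * P s) s := fun s =>
    (hPc.const_mul r⁻¹ : Continuous fun t => r⁻¹ * P t).integral_hasStrictDerivAt 0 s
      |>.hasDerivAt
  have hpos : ∀ s, 0 < r⁻¹ * P s := fun s => mul_pos (inv_pos.2 hr0) (hPpos s)
  obtain ⟨σ, hσl, hσd⟩ := inverse_fun θ (fun s => r⁻¹ * P s) hθd hpos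
  have hmono : StrictMono θ := strictMono_of_deriv_pos fun s => by
    rw [(hθd s).deriv]; exact hpos s
  have hcont : Continuous θ := continuous_iff_continuousAt.2 fun s => (hθd s).continuousAt
  set z : ℝ → E q × (Fin (q + 1) → E q) := fun u => (r⁻¹ • (γ (σ u)).1, (γ (σ u)).2) with hz
  have hzθ : ∀ s, z (θ s) = (r⁻¹ • (γ s).1, (γ s).2) := fun s => by simp only [hz, hσl]
  have hzder : ∀ s, GF C (z (θ s)).1 (z (θ s)).2 ∧ ‖(z (θ s)).1‖ = 1 ∧
      HasDerivAt z (V1 C (z (θ s))) (θ s) := by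
    intro s
    have hx0 := (hmem s).1.x0
    refine ⟨?_, ?_, ?_⟩
    · rw [hzθ]; exact GF_scale hL hr0 (hmem s).1
    · rw [hzθ]
      simp only [norm_smul, Real.norm_of_nonneg (inv_pos.2 hr0).le, hnorm]
      exact inv_mul_cancel₀ hr0.ne'
    · have h1 : HasDerivAt (fun u => γ (σ u)) ((r⁻¹ * P s)⁻¹ • XF C (γ s)) (θ s) := by
        have h2 : HasDerivAt γ (XF C (γ s)) (σ (θ s)) := by rw [hσl]; exact hder s
        exact HasDerivAt.scomp (θ s) h2 (hσd s)
      have h3 : (r⁻¹ * P s)⁻¹ • XF C (γ s) = r • V1 C (γ s) := by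
        unfold XF
        rw [smul_smul]
        congr 1
        have : PP C (γ s).1 (γ s).2 ≠ 0 := (hPpos s).ne'
        simp only [hP]
        field_simp
      rw [h3] at h1
      have h4 : HasDerivAt (fun u => (γ (σ u)).1) (r • V1 C (γ s)).1 (θ s) :=
        (ContinuousLinearMap.fst ℝ (E q) (Fin (q + 1) → E q)).hasFDerivAt.comp_hasDerivAt (θ s) h1
      have h5 : HasDerivAt (fun u => (γ (σ u)).2) (r • V1 C (γ s)).2 (θ s) :=
        (ContinuousLinearMap.snd ℝ (E q) (Fin (q + 1) → E q)).hasFDerivAt.comp_hasDerivAt (θ s) h1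
      have h6 := (h4.const_smul r⁻¹).prodMk h5
      have h7 : V1 C (z (θ s)) = (r⁻¹ • (r • V1 C (γ s)).1, (r • V1 C (γ s)).2) := by
        rw [hzθ]
        unfold V1
        simp only [Prod.smul_mk, smul_smul, inv_mul_cancel₀ hr0.ne', one_smul]
        rw [v2_scale hL hx0 hr0]
      rw [h7]
      exact h6
  have hτ : ∀ s, τ (z (θ s)).1 = τ (γ s).1 := fun s => by
    rw [hzθ]; exact hL.tau_hom _ (hmem s).1.x0 _ (inv_pos.2 hr0)
  have hγ0 : γ 0 = z0 := hφ.zero z0 hz0
  refine ⟨θ (-1), θ (s₂ + s₁ + 1), θ 0, θ s₁, θ s₂, θ (s₂ + s₁), z, hmono (by norm_num),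
    hmono hs1, hmono hs12, hmono (by linarith), hmono (by linarith), ?_, ?_, ?_, ?_⟩
  · intro u hu
    obtain ⟨w, _, rfl⟩ := intermediate_value_Ioo (by linarith : (-1 : ℝ) ≤ s₂ + s₁ + 1)
      hcont.continuousOn hu
    exact hzder w
  · rw [hτ, hτ, hγ0]; exact h01
  · rw [hτ, hτ]; exact h21
  · rw [hτ, hτ]; exact h23

end Pool.Agent.W764.LG
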